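import Pool.Agent.Lib.MP_75c153_gt.Main

namespace Pool.Agent.Results.MP_75c153_gt.CellularTorsion

open Pool.Agent.Lib.MP_75c153_gt MeasureTheory Filter Topology

/-- Approximation of cellular L²-torsion by finite covers fails for the universal cover of a finite
L²-acyclic three-dimensional CW complex whose fundamental group is the Heisenberg group. -/
theorem result :
    ∃ (c₃ : Matrix (Fin 2) (Fin 4) (MonoidAlgebra ℤ (Pi1 heisRel)))
      (N : ℕ → Subgroup (Pi1 heisRel)) (_ : ∀ n, (N n).Normal) (_ : ∀ n, (N n).FiniteIndex)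
      (μ₀ μ₁ μ₂ μ₃ : Measure ℝ),
      c₃ * bd₂ heisRel = 0 ∧ N 0 = ⊤ ∧ StrictAnti N ∧ ⨅ n, N n = ⊥ ∧
      IsSpecMeasure (adj (bd₁ heisRel) * bd₁ heisRel) μ₀ ∧
      IsSpecMeasure (lap (bd₁ heisRel) (bd₂ heisRel)) μ₁ ∧
      IsSpecMeasure (lap (bd₂ heisRel) c₃) μ₂ ∧
      IsSpecMeasure (c₃ * adj c₃) μ₃ ∧
      (∀ μ ∈ [μ₀, μ₁, μ₂, μ₃], μ {0} = 0 ∧ IntegrableOn Real.log (Set.Ioi 0) μ) ∧
      ¬ Tendsto (fun n => coverTorsion (bd₁ heisRel) (bd₂ heisRel) c₃ (N n) / ((N n).index : ℝ))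
        atTop (𝓝 (torsionOf (logDetFK μ₁) (logDetFK μ₂) (logDetFK μ₃))) := by
  obtain ⟨b, μ₀, μ₁, μ₂, μ₃, h⟩ := torsion_counter
  exact ⟨bd₃ b, chain5, inferInstance, inferInstance, μ₀, μ₁, μ₂, μ₃, bd₃_mul b, chain5_zero,
    chain5_strictAnti, chain5_iInf, h⟩

end Pool.Agent.Results.MP_75c153_gt.CellularTorsion
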