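import Pool.Agent.Lib.MP_75c153_gt.Main

namespace Pool.Agent.Results.MP_75c153_gt.FKDeterminant

open Pool.Agent.Lib.MP_75c153_gt MeasureTheory

/-- The Fuglede-Kadison determinant of `a = (y - 2)(y - 3) - (6 - y) x` over the Heisenberg group
is at least `6`, while along a residual chain the normalised determinants of its images stay below
the fifth root of `4864 < 6 ^ 5`. -/
theorem result :
    ∃ (N : ℕ → Subgroup (Pi1 heisRel)) (_ : ∀ n, (N n).Normal) (_ : ∀ n, (N n).FiniteIndex)
      (μ : Measure ℝ),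
      N 0 = ⊤ ∧ StrictAnti N ∧ ⨅ n, N n = ⊥ ∧
      IsSpecMeasure (heisElt * adj heisElt) μ ∧ μ {0} = 0 ∧
      IntegrableOn Real.log (Set.Ioi 0) μ ∧ Real.log 6 ≤ logDetFK μ / 2 ∧
      ∀ n, 1 ≤ n → coverLogDet heisElt (N n) / 2 / ((N n).index : ℝ) ≤ Real.log 4864 / 5 := by
  obtain ⟨μ, h1, -, h2, h3, h4, h5⟩ := fk_counter
  refine ⟨chain5, inferInstance, inferInstance, μ, chain5_zero, chain5_strictAnti, chain5_iInf,
    h1, h2, h3, by linarith, fun n hn => ?_⟩
  obtain ⟨m, rfl⟩ := Nat.exists_eq_add_of_le' hn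
  have h := h5 m
  have e : coverLogDet heisElt (chain5 (m + 1)) =
      ((chainEigs chain5 (cpos_mul_adj (one11 (elt gx gy))) (m + 1)).map Real.log).sum := by
    classical
    let : Fintype (Pi1 heisRel ⧸ chain5 (m + 1)) := Fintype.ofFinite _
    have f := logDetPos_eq (cpos_mul_adj (one11 (elt gx gy)) (chain5 (m + 1))).isHermitian
    rw [chainEigs]
    erw [← f]
    simp only [cover_mul, cover_adj]
    rfl
  rw [e, div_right_comm]
  linarith

end Pool.Agent.Results.MP_75c153_gt.FKDeterminant
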